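import Pool.Agent.Lib_MP_1c78a5_ghost.FinS
import Pool.Agent.Lib_MP_1c78a5_ghost.FinD
import Pool.Agent.Lib_MP_1c78a5_ghost.UnitP
import Pool.Agent.Lib_MP_1c78a5_ghost.WH
import Pool.Agent.Lib_MP_1c78a5_ghost.Expl

/-!
# Ghost SICs exist in every dimension

For every `d ≥ 4` there is a vector `ψ` such that, with `φ i = ψ (- i)`, the pair `φ`, `ψ` solves the
equations `⟨φ|ψ⟩ = 1`, `⟨φ|D|ψ⟩ ⟨φ|D⁻¹|ψ⟩ = 1 / (d + 1)` for all displacement operators `D ≠ 1` of the
Weyl-Heisenberg group. The overlaps are explicit: up to the factor `1 / √(d + 1)` and a root of unity they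
are the positive real numbers `ν (a, b)`, products of three values of the double sine function with the
periods `√ε`, `1 / √ε`, where `ε` is the unit `(d - 1 + √((d + 1) (d - 3))) / 2`. Every ring homomorphism
`ℂ → ℂ` which maps the numbers `ν (a, b)` to the unit circle maps the rank one operator `|ψ⟩⟨φ|` to the
projector on a Weyl-Heisenberg covariant SIC fiducial.
-/

set_option autoImplicit false

namespace Pool.Agent.Results.MP_1c78a5_mp.GhostSIC

open Ghost Complex
open scoped ComplexConjugate Real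

/-- The double sine function `S₂ (x | w₁, w₂)`, for `0 < x < w₁ + w₂`. -/
noncomputable def doubleSine (w₁ w₂ x : ℝ) : ℝ :=
  Real.exp (∫ t in Set.Ioi (0 : ℝ), (Real.sinh ((2 * x - (w₁ + w₂)) * t) /
    (2 * Real.sinh (w₁ * t) * Real.sinh (w₂ * t)) -
      (2 * x - (w₁ + w₂)) / (2 * (w₁ * w₂) * t)) / t)

/-- `β = √ε`, where `ε = (d - 1 + √((d + 1) (d - 3))) / 2`. -/
noncomputable def beta (d : ℕ) : ℝ :=
  Real.sqrt (((d : ℝ) - 1 + Real.sqrt (((d : ℝ) + 1) * ((d : ℝ) - 3))) / 2)

/-- The number `S₂ ((a / β + b β) / d | β, 1 / β)` (representatives `0 ≤ a, b < d`), divided by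
`√(2 sin (π b / d))` if `a = 0` and by `√(2 sin (π a / d))` if `b = 0`. -/
noncomputable def factor (d : ℕ) (a b : ZMod d) : ℝ :=
  doubleSine (beta d) (beta d)⁻¹ ((a.val * (beta d)⁻¹ + b.val * beta d) / d) *
    (if a = 0 then (Real.sqrt (2 * Real.sin (π * b.val / d)))⁻¹ else 1) *
    (if b = 0 then (Real.sqrt (2 * Real.sin (π * a.val / d)))⁻¹ else 1)

/-- The positive numbers `ν (a, b)`: the product of the factors over the orbit of `(a, b)` under the
map `(a, b) ↦ (b - a, - a)` of order three. -/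
noncomputable def nu (d : ℕ) (a b : ZMod d) : ℝ :=
  factor d a b * factor d (b - a) (-a) * factor d (-b) (a - b)

theorem nu_eq (d : ℕ) (hd : 4 ≤ d) (a b : ZMod d) :
    (-1) ^ (min a.val b.val) * nu d a b = nuZ (parD d hd) d a b := by
  have h : ∀ a b : ZMod d, factor d a b = sgZ (parD d hd) d a b := by
    intro a b
    unfold factor sgZ pt
    push_cast
    rfl
  unfold nu nuZ
  rw [h, h, h]

theorem factor_pos (d : ℕ) [NeZero d] {a b : ZMod d} (h : ¬(a = 0 ∧ b = 0)) : 0 < factor d a b := by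
  have hv : ∀ x : ZMod d, x ≠ 0 → 0 < Real.sin (π * x.val / d) := by
    intro x hx
    have h0 : (0 : ℤ) < (x.val : ℤ) := by
      have : 0 < x.val := Nat.pos_of_ne_zero fun h0 => hx ((ZMod.val_eq_zero x).1 h0)
      exact_mod_cast this
    have h1 : (x.val : ℤ) < d := by exact_mod_cast ZMod.val_lt x
    exact_mod_cast EXPL_sin_pos h0 h1
  unfold factor doubleSine
  refine mul_pos (mul_pos (Real.exp_pos _) ?_) ?_
  · split_ifs with ha
    · have hb : b ≠ 0 := fun hb => h ⟨ha, hb⟩
      have := hv b hb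
      positivity
    · exact one_pos
  · split_ifs with hb
    · have ha : a ≠ 0 := fun ha => h ⟨ha, hb⟩
      have := hv a ha
      positivity
    · exact one_pos

theorem nu_pos (d : ℕ) [NeZero d] {a b : ZMod d} (h : ¬(a = 0 ∧ b = 0)) : 0 < nu d a b := by
  unfold nu
  refine mul_pos (mul_pos (factor_pos d h) (factor_pos d ?_)) (factor_pos d ?_)
  · rintro ⟨h1, h2⟩
    rw [neg_eq_zero] at h2
    rw [h2, sub_zero] at h1
    exact h ⟨h2, h1⟩
  · rintro ⟨h1, h2⟩
    rw [neg_eq_zero] at h1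
    rw [h1, sub_zero] at h2
    exact h ⟨h2, h1⟩

/-- **Ghost SICs exist in every dimension.** -/
theorem result (d : ℕ) [NeZero d] (hd : 4 ≤ d) :
    ∃ ψ : ZMod d → ℂ,
      braket (fun i => ψ (-i)) 1 ψ = 1 ∧
      (∀ a b : ZMod d, ¬(a = 0 ∧ b = 0) →
        braket (fun i => ψ (-i)) (displacement d a b) ψ *
          braket (fun i => ψ (-i)) (displacement d a b)⁻¹ ψ = 1 / (d + 1)) ∧
      (∀ a b : ZMod d, ¬(a = 0 ∧ b = 0) →
        0 < nu d a b ∧ nu d a b * nu d (-a) (-b) = 1 ∧
        braket (fun i => ψ (-i)) (displacement d a b) ψ =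
          (-1) ^ (min a.val b.val) * Complex.exp (-(π * I * a.val * b.val / d)) * nu d a b /
            (Real.sqrt (d + 1) : ℂ)) ∧
      (∀ σ : ℂ →+* ℂ,
        (∀ a b : ZMod d, ¬(a = 0 ∧ b = 0) → ‖σ (nu d a b)‖ = 1) →
        ∃ φ : ZMod d → ℂ, (∀ i k, φ i * conj (φ k) = σ (ψ i * conj (ψ (-k)))) ∧
          ∑ i, ‖φ i‖ ^ 2 = 1 ∧
          ∀ a b : ZMod d, ¬(a = 0 ∧ b = 0) →
            ‖braket φ (displacement d a b) φ‖ ^ 2 = 1 / (d + 1)) := by
  have hU := parD_isUnit d hd
  obtain ⟨D, hr, hQ⟩ := exists_data hU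
  have hQ0 : (0 : ℝ) < (parD d hd).Q := Q_pos _
  have hQs : (parD d hd).Q = Real.sqrt (d + 1) := by
    rw [← Q_sq hU, Real.sqrt_sq hQ0.le]
  have hQ1 : ((parD d hd).Q : ℂ) ≠ 0 := by exact_mod_cast hQ0.ne'
  have hdpos : (d : ℂ) ≠ 0 := by exact_mod_cast (d_pos hU).ne'
  have hne : ∀ a b : ZMod d, ¬(a = 0 ∧ b = 0) → a ≠ 0 ∨ b ≠ 0 := fun a b h => by tauto
  -- the matrix of the ghost data
  have hrM : ∀ a b : ZMod d, ¬(a = 0 ∧ b = 0) → D.r a b * ((-1) ^ (min a.val b.val) * nu d a b) =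
      Complex.exp (π * I * a.val * b.val / d) := by
    intro a b h
    have h2 : ¬ Sing d (a.val : ℤ) (b.val : ℤ) := by
      rintro ⟨h3, h4⟩
      rw [Int.natCast_dvd_natCast] at h3 h4
      apply h
      constructor
      · rw [← ZMod.natCast_zmod_val a, (ZMod.natCast_eq_zero_iff _ _).2 h3]
      · rw [← ZMod.natCast_zmod_val b, (ZMod.natCast_eq_zero_iff _ _).2 h4]
    have h3 := Rr_nuZ hU (hne a b h)
    have h4 : ((-1 : ℂ)) ^ (min a.val b.val) * (nu d a b : ℂ) = (nuZ (parD d hd) d a b : ℂ) := by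
      rw [← nu_eq d hd]
      push_cast
      rfl
    rw [hr, h4]
    unfold rM rZ
    rw [if_neg h2]
    have h5 : e ((((a.val : ℤ) : ℝ) * ((b.val : ℤ) : ℝ) / (2 * d) : ℝ)) =
        Complex.exp (π * I * a.val * b.val / d) := by
      unfold e
      congr 1
      push_cast
      field_simp
    rw [h5]
    linear_combination Complex.exp (π * I * a.val * b.val / d) * h3
  have hexp : ∀ x : ℂ, Complex.exp (-x) * Complex.exp x = 1 := fun x => by
    rw [← Complex.exp_add, neg_add_cancel, Complex.exp_zero]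
  have hovl : ∀ a b : ZMod d, ¬(a = 0 ∧ b = 0) →
      braket (fun i => D.psi (-i)) (displacement d a b) D.psi =
        (-1) ^ (min a.val b.val) * Complex.exp (-(π * I * a.val * b.val / d)) * nu d a b /
          (Real.sqrt (d + 1) : ℂ) := by
    intro a b h
    rw [braket_disp, D.ovl_psi, hQ, hQs]
    congr 1
    have h1 := hrM a b h
    have h2 := D.hneg a b (hne a b h)
    have h3 : (ZMod.stdAddChar (-(a * b)) : ℂ) * ZMod.stdAddChar (a * b) = 1 := by
      rw [← AddChar.map_add_eq_mul, neg_add_cancel, AddChar.map_zero_eq_one]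
    have h4 := hexp (π * I * a.val * b.val / d)
    have h5 : D.r a b ≠ 0 := by
      intro h0
      rw [h0, zero_mul] at h1
      exact Complex.exp_ne_zero _ h1.symm
    apply mul_left_cancel₀ h5
    calc D.r a b * (ZMod.stdAddChar (-(a * b)) * D.r (-a) (-b)) =
        ZMod.stdAddChar (-(a * b)) * (D.r a b * D.r (-a) (-b)) := by ring
      _ = 1 := by rw [h2, h3]
      _ = Complex.exp (-(π * I * a.val * b.val / d)) *
          (D.r a b * ((-1) ^ (min a.val b.val) * nu d a b)) := by rw [h1, h4]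
      _ = _ := by ring
  have hnorm : ∀ a b : ZMod d, ¬(a = 0 ∧ b = 0) → ‖D.r a b‖ * nu d a b = 1 := by
    intro a b h
    have h1 := congrArg norm (hrM a b h)
    rw [norm_mul, norm_mul, norm_pow, norm_neg, norm_one, one_pow, one_mul, Complex.norm_real,
      Real.norm_of_nonneg (nu_pos d h).le] at h1
    rw [h1, show (π * I * a.val * b.val / d : ℂ) = ((π * a.val * b.val / d : ℝ) : ℂ) * I by
      push_cast; ring]
    exact Complex.norm_exp_ofReal_mul_I _
  refine ⟨D.psi, ?_, ?_, fun a b h => ⟨nu_pos d h, ?_, hovl a b h⟩, ?_⟩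
  · have h := D.ovl_zero
    rw [← braket_disp] at h
    have h1 : displacement d 0 0 = 1 := by
      unfold displacement
      simp
    rw [h1] at h
    exact h
  · intro a b h
    rw [braket_disp, braket_disp_inv]
    exact D.ovl_mul (hne a b h)
  · have h' : ¬(-a = 0 ∧ -b = 0) := by
      rwa [neg_eq_zero, neg_eq_zero]
    have h1 := hnorm a b h
    have h2 := hnorm _ _ h'
    have h3 := congrArg norm (D.hneg a b (hne a b h))
    rw [norm_mul] at h3
    have h4 : ‖(ZMod.stdAddChar (a * b) : ℂ)‖ = 1 := by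
      have : (ZMod.stdAddChar (a * b) : ℂ) ^ d = 1 := by
        rw [← AddChar.map_nsmul_eq_pow]
        simp
      exact norm_eq_one_of_pow_eq_one this (NeZero.ne d)
    rw [h4] at h3
    calc nu d a b * nu d (-a) (-b) =
        (‖D.r a b‖ * ‖D.r (-a) (-b)‖) * (nu d a b * nu d (-a) (-b)) := by rw [h3, one_mul]
      _ = (‖D.r a b‖ * nu d a b) * (‖D.r (-a) (-b)‖ * nu d (-a) (-b)) := by ring
      _ = 1 := by rw [h1, h2, one_mul]
  · intro σ hσ
    have hσ' : ∀ a b : ZMod d, a ≠ 0 ∨ b ≠ 0 → ‖σ (D.r a b)‖ = 1 := by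
      intro a b h
      have h0 : ¬(a = 0 ∧ b = 0) := by tauto
      have h1 := hσ a b h0
      have h2 := congrArg σ (hrM a b h0)
      rw [map_mul] at h2
      have h3 := congrArg norm h2
      rw [norm_mul, map_mul, map_pow, map_neg, map_one, norm_mul, norm_pow, norm_neg, norm_one,
        one_pow, one_mul, h1, mul_one] at h3
      rw [h3]
      have h5 : (Complex.exp (π * I * a.val * b.val / d)) ^ (2 * d) = 1 := by
        rw [← Complex.exp_nat_mul, Complex.exp_eq_one_iff]
        refine ⟨a.val * b.val, ?_⟩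
        push_cast
        field_simp
      refine norm_eq_one_of_pow_eq_one (n := 2 * d) ?_ ?_
      · rw [← map_pow, h5, map_one]
      · have := NeZero.ne d
        omega
    obtain ⟨φ, h1, h2, h3⟩ := D.sic σ hσ'
    refine ⟨φ, h1, h2, fun a b h => ?_⟩
    rw [braket_disp]
    exact h3 a b (hne a b h)

end Pool.Agent.Results.MP_1c78a5_mp.GhostSIC
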