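import Pool.Agent.Lib_zau.Zauner

/-!
# Weyl-Heisenberg covariant SICs exist in every dimension

For every `d ≥ 2` there is a unit vector `ψ ∈ ℂ^d` with `|⟨ψ| X^a Z^b |ψ⟩|² = 1 / (d + 1)` for all
`(a, b) ≠ (0, 0)` modulo `d`.
-/

set_option autoImplicit false

namespace Pool.Agent.Results.MP_1c78a5_mp.AllDimensions

open Ghost

/-- **Existence of Weyl-Heisenberg covariant SIC fiducials in every dimension.** -/
theorem result (d : ℕ) [NeZero d] (hd : 2 ≤ d) :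
    ∃ ψ : ZMod d → ℂ, ∑ i, ‖ψ i‖ ^ 2 = 1 ∧
      ∀ a b : ZMod d, ¬(a = 0 ∧ b = 0) →
        ‖braket ψ (displacement d a b) ψ‖ ^ 2 = 1 / ((d : ℝ) + 1) := by
  obtain ⟨φ, h1, h2⟩ := Zau.zauner d hd
  exact ⟨φ, h1, fun a b hab => h2 a b hab⟩

end Pool.Agent.Results.MP_1c78a5_mp.AllDimensions
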