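import Mathlib

/-!
# Exact Weyl-Heisenberg SIC overlaps from Bose relative difference sets

For a prime power `q` and `d = q ^ 2 - 1` there is a set `D` of `q` residues mod `d` such that every
vector with entries of modulus `1 / √q` on `D` and `0` off `D` satisfies the SIC equation
`|⟨ψ | D_{a,b} | ψ⟩|² = 1 / (d + 1)` exactly, for all `(a, b)` with `a` not divisible by `q + 1`.
-/

set_option autoImplicit false

namespace Pool.Agent.Results.MP_1c78a5_mp.ExactOverlaps

open Finset

/-- The shift operator `X`: `X |j⟩ = |j+1⟩`, indices modulo `d`. -/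
noncomputable def shiftOp (d : ℕ) [NeZero d] : Matrix (ZMod d) (ZMod d) ℂ :=
  Matrix.of fun i j => if i = j + 1 then 1 else 0

/-- The clock operator `Z`: `Z |j⟩ = ω^j |j⟩`, `ω = exp (2πi/d)`. -/
noncomputable def clockOp (d : ℕ) [NeZero d] : Matrix (ZMod d) (ZMod d) ℂ :=
  Matrix.diagonal fun j => Complex.exp (2 * Real.pi * Complex.I / d) ^ j.val

/-- The displacement operator `D_{a,b} = X^a Z^b`. -/
noncomputable def displacement (d : ℕ) [NeZero d] (a b : ZMod d) :
    Matrix (ZMod d) (ZMod d) ℂ :=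
  shiftOp d ^ a.val * clockOp d ^ b.val

/-- The overlap `⟨ψ | D_{a,b} | ψ⟩`. -/
noncomputable def overlap {d : ℕ} [NeZero d] (ψ : ZMod d → ℂ) (a b : ZMod d) : ℂ :=
  dotProduct (star ψ) ((displacement d a b).mulVec ψ)

lemma shift_mulVec {d : ℕ} [NeZero d] (n : ℕ) (ψ : ZMod d → ℂ) :
    (shiftOp d ^ n).mulVec ψ = fun i => ψ (i - n) := by
  induction n generalizing ψ with
  | zero => simp
  | succ n ih =>
    rw [pow_succ, ← Matrix.mulVec_mulVec, ih]
    funext i
    have h1 : (shiftOp d).mulVec ψ (i - n) = ψ (i - n - 1) := by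
      unfold shiftOp Matrix.mulVec dotProduct
      simp only [Matrix.of_apply]
      rw [sum_eq_single (i - n - 1)]
      · simp
      · intro j _ hj
        rw [if_neg, zero_mul]
        intro h
        apply hj
        rw [h]
        ring
      · intro h
        exact absurd (mem_univ _) h
    rw [h1]
    congr 1
    push_cast
    ring

lemma clock_mulVec {d : ℕ} [NeZero d] (n : ℕ) (ψ : ZMod d → ℂ) (i : ZMod d) :
    (clockOp d ^ n).mulVec ψ i = (Complex.exp (2 * Real.pi * Complex.I / d) ^ n) ^ i.val * ψ i := by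
  unfold clockOp
  rw [Matrix.diagonal_pow, Matrix.mulVec_diagonal, Pi.pow_apply, ← pow_mul, ← pow_mul, mul_comm n]

/-- the overlap as a sum -/
lemma overlap_eq {d : ℕ} [NeZero d] (ψ : ZMod d → ℂ) (a b : ZMod d) :
    overlap ψ a b = ∑ i : ZMod d, star (ψ i) *
      ((Complex.exp (2 * Real.pi * Complex.I / d) ^ b.val) ^ (i - a).val * ψ (i - a)) := by
  unfold overlap displacement
  rw [← Matrix.mulVec_mulVec, shift_mulVec]
  unfold dotProduct
  refine sum_congr rfl fun i _ => ?_
  simp only [ZMod.natCast_zmod_val, Pi.star_apply]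
  rw [clock_mulVec]

lemma norm_root (d n m : ℕ) : ‖(Complex.exp (2 * Real.pi * Complex.I / d) ^ n) ^ m‖ = 1 := by
  rw [norm_pow, norm_pow]
  have : Complex.exp (2 * Real.pi * Complex.I / d) =
      Complex.exp ((2 * Real.pi / d : ℝ) * Complex.I) := by
    congr 1
    push_cast
    ring
  rw [this, Complex.norm_exp_ofReal_mul_I]
  simp

/-! ### the relative difference set -/

/-- the set `{i : Tr (θ ^ i) = 1}`, where `Tr x = x + x ^ q` -/
noncomputable def bose {F : Type} [Field F] [DecidableEq F] (q d : ℕ) [NeZero d] (θ : F) :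
    Finset (ZMod d) :=
  Finset.univ.filter fun i => θ ^ i.val + (θ ^ i.val) ^ q = 1

section field

variable {F : Type} [Field F] {p n q : ℕ}

lemma frob_add (hp : p.Prime) [CharP F p] (hq : q = p ^ n) (x y : F) :
    (x + y) ^ q = x ^ q + y ^ q := by
  have := Fact.mk hp
  rw [hq]
  exact add_pow_char_pow x y p n

lemma frob_sub (hp : p.Prime) [CharP F p] (hq : q = p ^ n) (x y : F) :
    (x - y) ^ q = x ^ q - y ^ q := by
  have := Fact.mk hp
  rw [hq]
  exact sub_pow_char_pow x y n

lemma pow_qq [Fintype F] (hF : Fintype.card F = q ^ 2) (x : F) : (x ^ q) ^ q = x := by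
  rw [← pow_mul, ← sq, ← hF]
  exact FiniteField.pow_card x

/-- the two equations have exactly one common solution -/
lemma unique_sol [Fintype F] (hp : p.Prime) [CharP F p] (hq : q = p ^ n) (hF : Fintype.card F = q ^ 2)
    {c : F} (hc : c ^ q ≠ c) (x : F) :
    (x + x ^ q = 1 ∧ c * x + (c * x) ^ q = 1) ↔ x = (1 - c ^ q) / (c - c ^ q) := by
  have hc' : c - c ^ q ≠ 0 := fun h => hc (sub_eq_zero.1 h).symm
  constructor
  · rintro ⟨h1, h2⟩
    rw [eq_div_iff hc']
    rw [mul_pow] at h2
    have h3 : x ^ q = 1 - x := by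
      rw [← h1]
      ring
    rw [h3] at h2
    linear_combination h2
  · intro h
    have hcq : (c ^ q) ^ q = c := pow_qq hF c
    have hx : x * (c - c ^ q) = 1 - c ^ q := by
      rw [h]
      field_simp
    have hxq : x ^ q * (c ^ q - c) = 1 - c := by
      have h1 := congrArg (fun t => t ^ q) hx
      simp only [mul_pow] at h1
      rw [frob_sub hp hq, frob_sub hp hq, hcq, one_pow] at h1
      exact h1
    have h1 : x + x ^ q = 1 := by
      have h2 : (x + x ^ q) * (c - c ^ q) = 1 * (c - c ^ q) := by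
        linear_combination hx - hxq
      exact mul_right_cancel₀ hc' h2
    refine ⟨h1, ?_⟩
    rw [mul_pow]
    have h2 : x ^ q = 1 - x := by
      rw [← h1]
      ring
    rw [h2]
    linear_combination hx


/-- at most `q` solutions of `x + x ^ q = y` -/
lemma card_fib_le [Fintype F] [DecidableEq F] (hq2 : 2 ≤ q) (y : F) :
    (Finset.univ.filter fun x : F => x + x ^ q = y).card ≤ q := by
  classical
  let P : Polynomial F := Polynomial.X ^ q + Polynomial.X - Polynomial.C y
  have hdeg : P.natDegree = q := by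
    have h1 : (Polynomial.X - Polynomial.C y : Polynomial F).natDegree < q := by
      rw [Polynomial.natDegree_X_sub_C]
      omega
    have e : P = Polynomial.X ^ q + (Polynomial.X - Polynomial.C y) := by
      simp only [P]
      ring
    rw [e, Polynomial.natDegree_add_eq_left_of_natDegree_lt, Polynomial.natDegree_X_pow]
    rwa [Polynomial.natDegree_X_pow]
  have hP : P ≠ 0 := by
    intro h
    rw [h, Polynomial.natDegree_zero] at hdeg
    omega
  calc (Finset.univ.filter fun x : F => x + x ^ q = y).card ≤ P.roots.toFinset.card := by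
        apply Finset.card_le_card
        intro x hx
        rw [Finset.mem_filter] at hx
        rw [Multiset.mem_toFinset, Polynomial.mem_roots hP, Polynomial.IsRoot.def]
        simp only [P, Polynomial.eval_sub, Polynomial.eval_add, Polynomial.eval_pow,
          Polynomial.eval_X, Polynomial.eval_C]
        rw [← hx.2]
        ring
    _ ≤ Multiset.card P.roots := Multiset.toFinset_card_le _
    _ ≤ P.natDegree := Polynomial.card_roots' P
    _ = q := hdeg

/-- at most `q` solutions of `y ^ q = y` -/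
lemma card_fix_le [Fintype F] [DecidableEq F] (hq2 : 2 ≤ q) :
    (Finset.univ.filter fun y : F => y ^ q = y).card ≤ q := by
  classical
  let P : Polynomial F := Polynomial.X ^ q - Polynomial.X
  have hdeg : P.natDegree = q := by
    have h1 : (Polynomial.X : Polynomial F).natDegree < q := by
      rw [Polynomial.natDegree_X]
      omega
    simp only [P]
    rw [Polynomial.natDegree_sub_eq_left_of_natDegree_lt, Polynomial.natDegree_X_pow]
    rwa [Polynomial.natDegree_X_pow]
  have hP : P ≠ 0 := by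
    intro h
    rw [h, Polynomial.natDegree_zero] at hdeg
    omega
  calc (Finset.univ.filter fun x : F => x ^ q = x).card ≤ P.roots.toFinset.card := by
        apply Finset.card_le_card
        intro x hx
        rw [Finset.mem_filter] at hx
        rw [Multiset.mem_toFinset, Polynomial.mem_roots hP, Polynomial.IsRoot.def]
        simp only [P, Polynomial.eval_sub, Polynomial.eval_pow, Polynomial.eval_X]
        rw [hx.2, sub_self]
    _ ≤ Multiset.card P.roots := Multiset.toFinset_card_le _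
    _ ≤ P.natDegree := Polynomial.card_roots' P
    _ = q := hdeg

/-- exactly `q` elements of trace one -/
lemma card_fib [Fintype F] [DecidableEq F] (hp : p.Prime) [CharP F p] (hq : q = p ^ n)
    (hF : Fintype.card F = q ^ 2) (hq2 : 2 ≤ q) :
    (Finset.univ.filter fun x : F => x + x ^ q = 1).card = q := by
  have hmaps : ∀ x ∈ (Finset.univ : Finset F), x + x ^ q ∈
      Finset.univ.filter fun y : F => y ^ q = y := by
    intro x _
    rw [Finset.mem_filter]
    refine ⟨Finset.mem_univ _, ?_⟩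
    rw [frob_add hp hq, pow_qq hF, add_comm]
  have h1 := Finset.card_eq_sum_card_fiberwise hmaps
  rw [Finset.card_univ, hF] at h1
  have h2 : ∑ y ∈ Finset.univ.filter (fun y : F => y ^ q = y),
      (Finset.univ.filter fun x : F => x + x ^ q = y).card ≤
      ∑ _y ∈ Finset.univ.filter (fun y : F => y ^ q = y), q :=
    Finset.sum_le_sum fun y _ => card_fib_le hq2 y
  have h3 : ∑ _y ∈ Finset.univ.filter (fun y : F => y ^ q = y), q ≤ q ^ 2 := by
    rw [Finset.sum_const, smul_eq_mul, sq]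
    exact Nat.mul_le_mul_right q (card_fix_le hq2)
  have h4 : ∑ y ∈ Finset.univ.filter (fun y : F => y ^ q = y),
      (Finset.univ.filter fun x : F => x + x ^ q = y).card =
      ∑ _y ∈ Finset.univ.filter (fun y : F => y ^ q = y), q := le_antisymm h2 (by omega)
  have h5 := (Finset.sum_eq_sum_iff_of_le fun y _ => card_fib_le hq2 y).1 h4 1 (by
    rw [Finset.mem_filter]
    exact ⟨Finset.mem_univ _, one_pow q⟩)
  exact h5

end field

/-! ### residues and powers of a generator -/

section gen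

variable {F : Type} [Field F] {p n q d : ℕ} [NeZero d]

/-- powers of the generator indexed by residues -/
lemma pow_val_sub {θ : Fˣ} (hθ : orderOf θ = d) (i a : ZMod d) :
    ((θ : F) ^ (i - a).val) = ((θ : F) ^ a.val)⁻¹ * (θ : F) ^ i.val := by
  have h1 : θ ^ (i - a).val * θ ^ a.val = θ ^ i.val := by
    rw [← pow_add]
    rw [pow_eq_pow_iff_modEq, hθ]
    have := ZMod.natCast_eq_natCast_iff ((i - a).val + a.val) i.val d
    rw [← this]
    push_cast
    rw [ZMod.natCast_zmod_val, ZMod.natCast_zmod_val, ZMod.natCast_zmod_val]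
    ring
  have h2 : (θ : F) ^ (i - a).val * (θ : F) ^ a.val = (θ : F) ^ i.val := by
    have := congrArg (Units.val) h1
    push_cast at this
    exact this
  have h3 : (θ : F) ^ a.val ≠ 0 := pow_ne_zero _ (Units.ne_zero θ)
  rw [← h2]
  field_simp

lemma pow_val_inj {θ : Fˣ} (hθ : orderOf θ = d) {i j : ZMod d}
    (h : (θ : F) ^ i.val = (θ : F) ^ j.val) : i = j := by
  have h1 : θ ^ i.val = θ ^ j.val := by
    apply Units.ext
    push_cast
    exact h
  rw [pow_eq_pow_iff_modEq, hθ, ← ZMod.natCast_eq_natCast_iff, ZMod.natCast_zmod_val,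
    ZMod.natCast_zmod_val] at h1
  exact h1

lemma pow_val_surj {θ : Fˣ} (hθ : orderOf θ = d) (hgen : ∀ x : Fˣ, x ∈ Subgroup.zpowers θ)
    {x : F} (hx : x ≠ 0) : ∃ i : ZMod d, (θ : F) ^ i.val = x := by
  obtain ⟨k, hk⟩ := hgen (Units.mk0 x hx)
  refine ⟨(k : ZMod d), ?_⟩
  have h1 : θ ^ ((k : ZMod d).val : ℤ) = θ ^ k := by
    rw [zpow_eq_zpow_iff_modEq, hθ, ← ZMod.intCast_eq_intCast_iff]
    push_cast
    rw [ZMod.natCast_zmod_val]
  rw [zpow_natCast] at h1
  have h2 := congrArg (Units.val) (h1.trans hk)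
  push_cast at h2
  simpa using h2

lemma card_bose [Fintype F] [DecidableEq F] (hp : p.Prime) [CharP F p] (hq : q = p ^ n)
    (hF : Fintype.card F = q ^ 2) (hq2 : 2 ≤ q) {θ : Fˣ} (hθ : orderOf θ = d)
    (hgen : ∀ x : Fˣ, x ∈ Subgroup.zpowers θ) : (bose q d (θ : F)).card = q := by
  refine Eq.trans ?_ (card_fib (F := F) hp hq hF hq2)
  refine Finset.card_bij (fun i _ => (θ : F) ^ i.val) ?_ ?_ ?_
  · intro i hi
    rw [bose, Finset.mem_filter] at hi
    rw [Finset.mem_filter]
    exact ⟨Finset.mem_univ _, hi.2⟩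
  · intro i _ j _ h
    exact pow_val_inj hθ h
  · intro x hx
    rw [Finset.mem_filter] at hx
    have hx0 : x ≠ 0 := by
      intro h
      rw [h] at hx
      have h0 : (0 : F) ^ q = 0 := zero_pow (by omega)
      rw [h0, add_zero] at hx
      exact zero_ne_one hx.2
    obtain ⟨i, hi⟩ := pow_val_surj hθ hgen hx0
    refine ⟨i, ?_, hi⟩
    rw [bose, Finset.mem_filter, hi]
    exact ⟨Finset.mem_univ _, hx.2⟩

lemma inv_pow_ne (hd : d + 1 = q ^ 2) (hq2 : 2 ≤ q) {θ : Fˣ} (hθ : orderOf θ = d)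
    {a : ZMod d} (ha : ¬ (q + 1) ∣ a.val) :
    (((θ : F) ^ a.val)⁻¹) ^ q ≠ ((θ : F) ^ a.val)⁻¹ := by
  intro h
  rw [inv_pow, inv_inj] at h
  have h1 : (θ ^ a.val) ^ q = θ ^ a.val := by
    apply Units.ext
    push_cast
    exact h
  rw [← pow_mul, pow_eq_pow_iff_modEq, hθ] at h1
  have h2 : d ∣ a.val * q - a.val := (Nat.modEq_iff_dvd' (by nlinarith)).1 h1.symm
  obtain ⟨r, rfl⟩ : ∃ r, q = r + 1 := ⟨q - 1, by omega⟩
  have hdr : d = (r + 1 + 1) * r := by
    have : d + 1 = (r + 1) ^ 2 := hd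
    nlinarith
  have h3 : a.val * (r + 1) - a.val = a.val * r := by
    rw [mul_add, mul_one, Nat.add_sub_cancel]
  have h4 : (r + 1 + 1) * r ∣ a.val * r := by
    rw [← h3]
    exact hdr ▸ h2
  exact ha (Nat.dvd_of_mul_dvd_mul_right (by omega) h4)

lemma inv_pow_eq (hd : d + 1 = q ^ 2) (hq2 : 2 ≤ q) {θ : Fˣ} (hθ : orderOf θ = d)
    {a : ZMod d} (ha : (q + 1) ∣ a.val) :
    (((θ : F) ^ a.val)⁻¹) ^ q = ((θ : F) ^ a.val)⁻¹ := by
  rw [inv_pow, inv_inj]
  have h1 : (θ ^ a.val) ^ q = θ ^ a.val := by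
    rw [← pow_mul, pow_eq_pow_iff_modEq, hθ]
    refine ((Nat.modEq_iff_dvd' (by nlinarith)).2 ?_).symm
    obtain ⟨r, rfl⟩ : ∃ r, q = r + 1 := ⟨q - 1, by omega⟩
    have hdr : d = (r + 1 + 1) * r := by
      have : d + 1 = (r + 1) ^ 2 := hd
      nlinarith
    have h3 : a.val * (r + 1) - a.val = a.val * r := by
      rw [mul_add, mul_one, Nat.add_sub_cancel]
    rw [h3]
    exact (dvd_of_eq hdr).trans (Nat.mul_dvd_mul_right ha r)
  have := congrArg Units.val h1
  push_cast at this
  exact this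

/-- a translate by `a` with `q + 1 ∤ a` meets the set in exactly one element -/
lemma bose_inter [Fintype F] [DecidableEq F] (hp : p.Prime) [CharP F p] (hq : q = p ^ n)
    (hF : Fintype.card F = q ^ 2) (hd : d + 1 = q ^ 2) (hq2 : 2 ≤ q) {θ : Fˣ}
    (hθ : orderOf θ = d) (hgen : ∀ x : Fˣ, x ∈ Subgroup.zpowers θ) {a : ZMod d}
    (ha : ¬ (q + 1) ∣ a.val) : ∃ i0 : ZMod d, ∀ i : ZMod d,
      (i ∈ bose q d (θ : F) ∧ i - a ∈ bose q d (θ : F)) ↔ i = i0 := by
  have hc := inv_pow_ne (F := F) hd hq2 hθ ha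
  have hx0 : (1 - ((((θ : F) ^ a.val)⁻¹) ^ q)) / (((θ : F) ^ a.val)⁻¹ - (((θ : F) ^ a.val)⁻¹) ^ q)
      ≠ 0 := by
    intro h
    have h1 := (unique_sol hp hq hF hc _).2 h.symm
    have h0 : (0 : F) ^ q = 0 := zero_pow (by omega)
    rw [h0, add_zero] at h1
    exact zero_ne_one h1.1
  obtain ⟨i0, hi0⟩ := pow_val_surj hθ hgen hx0
  refine ⟨i0, fun i => ?_⟩
  have h1 := unique_sol hp hq hF hc ((θ : F) ^ i.val)
  rw [← hi0] at h1
  unfold bose
  rw [Finset.mem_filter, Finset.mem_filter, pow_val_sub hθ]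
  constructor
  · rintro ⟨⟨-, h2⟩, -, h3⟩
    exact pow_val_inj hθ (h1.1 ⟨h2, h3⟩)
  · intro h
    rw [h] at h1 ⊢
    obtain ⟨h2, h3⟩ := h1.2 rfl
    exact ⟨⟨Finset.mem_univ _, h2⟩, Finset.mem_univ _, h3⟩

/-- a translate by a nonzero multiple of `q + 1` is disjoint from the set -/
lemma bose_disj [DecidableEq F] (hd : d + 1 = q ^ 2) (hq2 : 2 ≤ q) {θ : Fˣ}
    (hθ : orderOf θ = d) {a : ZMod d} (ha0 : a ≠ 0)
    (ha : (q + 1) ∣ a.val) (i : ZMod d) :
      ¬ (i ∈ bose q d (θ : F) ∧ i - a ∈ bose q d (θ : F)) := by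
  unfold bose
  rw [Finset.mem_filter, Finset.mem_filter, pow_val_sub hθ]
  rintro ⟨⟨-, h2⟩, -, h3⟩
  rw [mul_pow, inv_pow_eq hd hq2 hθ ha, ← mul_add, h2, mul_one] at h3
  have h4 : (θ : F) ^ a.val = 1 := by
    rw [← inv_inj, h3, inv_one]
  apply ha0
  apply pow_val_inj hθ (F := F)
  rw [h4, ZMod.val_zero, pow_zero]

end gen

/-! ### the row `a = 0` -/

section row

variable {q d : ℕ} [NeZero d]

/-- the additive character `i ↦ ω^{b i}` -/
noncomputable def ch (d : ℕ) [NeZero d] (b i : ZMod d) : ℂ :=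
  (Complex.exp (2 * Real.pi * Complex.I / d) ^ b.val) ^ i.val

lemma root_prim : IsPrimitiveRoot (Complex.exp (2 * Real.pi * Complex.I / d)) d :=
  Complex.isPrimitiveRoot_exp d (NeZero.ne d)

lemma ch_eq_one_iff (b i : ZMod d) : ch d b i = 1 ↔ d ∣ b.val * i.val := by
  unfold ch
  rw [← pow_mul, root_prim.pow_eq_one_iff_dvd]

lemma ch_add (b i j : ZMod d) : ch d b (i + j) = ch d b i * ch d b j := by
  unfold ch
  rw [← pow_add]
  have h1 : (i + j).val ≡ i.val + j.val [MOD d] := by
    rw [← ZMod.natCast_eq_natCast_iff]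
    push_cast
    rw [ZMod.natCast_zmod_val, ZMod.natCast_zmod_val, ZMod.natCast_zmod_val]
  have h2 : (Complex.exp (2 * Real.pi * Complex.I / d) ^ b.val) ^ d = 1 := by
    rw [← pow_mul, mul_comm b.val d, pow_mul, root_prim.pow_eq_one, one_pow]
  rw [← Nat.div_add_mod (i + j).val d, ← Nat.div_add_mod (i.val + j.val) d, h1, pow_add, pow_add,
    pow_mul, pow_mul, h2, one_pow, one_pow]

lemma ch_zero (b : ZMod d) : ch d b 0 = 1 := by
  unfold ch
  rw [ZMod.val_zero, pow_zero]

lemma ch_mul_star (b i : ZMod d) : ch d b i * star (ch d b i) = 1 := by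
  rw [RCLike.star_def, Complex.mul_conj, Complex.normSq_eq_norm_sq]
  have : ‖ch d b i‖ = 1 := norm_root d b.val i.val
  rw [this]
  norm_num

lemma ch_sub (b i j : ZMod d) : ch d b (i - j) = ch d b i * star (ch d b j) := by
  have h1 := ch_add b (i - j) j
  rw [sub_add_cancel] at h1
  rw [h1, mul_assoc, ch_mul_star, mul_one]

/-- a sum over a set invariant under translation by `c` vanishes if the character is not `1` at
`c` -/
lemma sum_ch_zero (b c : ZMod d) (M : Finset (ZMod d)) (hM : ∀ a, a ∈ M ↔ a + c ∈ M)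
    (hc : ch d b c ≠ 1) : ∑ a ∈ M, ch d b a = 0 := by
  have h1 : ∑ a ∈ M, ch d b a = ∑ a ∈ M, ch d b (a + c) := by
    symm
    refine Finset.sum_bij (fun a _ => a + c) (fun a ha => (hM a).1 ha)
      (fun a _ a' _ h => add_right_cancel h) (fun a ha => ⟨a - c, ?_, ?_⟩) (fun a _ => rfl)
    · rw [hM, sub_add_cancel]
      exact ha
    · rw [sub_add_cancel]
  have h2 : ∑ a ∈ M, ch d b a = (∑ a ∈ M, ch d b a) * ch d b c := by
    rw [Finset.sum_mul]
    exact h1.trans (Finset.sum_congr rfl fun a _ => ch_add b a c)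
  have h3 : (∑ a ∈ M, ch d b a) * (ch d b c - 1) = 0 := by
    rw [mul_sub, ← h2, mul_one, sub_self]
  rcases mul_eq_zero.1 h3 with h | h
  · exact h
  · exact absurd (sub_eq_zero.1 h) hc

lemma sum_ch_univ {b : ZMod d} (hb : b ≠ 0) : ∑ a, ch d b a = 0 := by
  refine sum_ch_zero b 1 Finset.univ (fun a => by simp) ?_
  rw [Ne, ch_eq_one_iff]
  have hd1 : d ≠ 1 := by
    rintro rfl
    exact hb (Subsingleton.elim _ _)
  have : Fact (1 < d) := ⟨by
    have := Nat.pos_of_ne_zero (NeZero.ne d)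
    omega⟩
  rw [ZMod.val_one, mul_one]
  intro h
  have h1 := ZMod.val_lt b
  have h2 := Nat.eq_zero_of_dvd_of_lt h h1
  exact hb ((ZMod.val_eq_zero b).1 h2)

lemma dvd_val_add (hq : (q + 1) ∣ d) (a c : ZMod d) (hc : (q + 1) ∣ c.val) :
    (q + 1) ∣ a.val ↔ (q + 1) ∣ (a + c).val := by
  rw [ZMod.val_add, Nat.dvd_mod_iff hq, Nat.dvd_add_left hc]

/-- the sum over the multiples of `q + 1` -/
lemma sum_ch_mult (hd : d + 1 = q ^ 2) (hq2 : 2 ≤ q) (b : ZMod d) :
    ∑ a ∈ Finset.univ.filter (fun a : ZMod d => (q + 1) ∣ a.val), ch d b a =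
      if (q - 1) ∣ b.val then ((q : ℂ) - 1) else 0 := by
  obtain ⟨r, rfl⟩ : ∃ r, q = r + 1 := ⟨q - 1, by omega⟩
  have hdr : d = (r + 1 + 1) * r := by
    have : d + 1 = (r + 1) ^ 2 := hd
    nlinarith
  have hqd : (r + 1 + 1) ∣ d := ⟨r, hdr⟩
  rw [Nat.add_sub_cancel]
  split_ifs with hb
  · have h1 : ∀ a ∈ Finset.univ.filter (fun a : ZMod d => (r + 1 + 1) ∣ a.val), ch d b a = 1 := by
      intro a ha
      rw [Finset.mem_filter] at ha
      rw [ch_eq_one_iff]
      have : r * (r + 1 + 1) ∣ b.val * a.val := Nat.mul_dvd_mul hb ha.2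
      refine (dvd_of_eq ?_).trans this
      rw [mul_comm r]
      exact hdr
    rw [Finset.sum_congr rfl h1, Finset.sum_const]
    have h2 : (Finset.univ.filter (fun a : ZMod d => (r + 1 + 1) ∣ a.val)).card = r := by
      have h3 : (Finset.range r).card = r := Finset.card_range r
      refine Eq.trans ?_ h3
      symm
      refine Finset.card_bij (fun t _ => (((r + 1 + 1) * t : ℕ) : ZMod d)) ?_ ?_ ?_
      · intro t ht
        rw [Finset.mem_range] at ht
        rw [Finset.mem_filter]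
        refine ⟨Finset.mem_univ _, ?_⟩
        rw [ZMod.val_natCast, Nat.dvd_mod_iff hqd]
        exact Dvd.intro t rfl
      · intro t ht t' ht' h
        rw [Finset.mem_range] at ht ht'
        have hlt : (r + 1 + 1) * t < d := by
          rw [hdr]
          exact Nat.mul_lt_mul_of_pos_left ht (by omega)
        have hlt' : (r + 1 + 1) * t' < d := by
          rw [hdr]
          exact Nat.mul_lt_mul_of_pos_left ht' (by omega)
        have h4 := congrArg ZMod.val h
        rw [ZMod.val_natCast, ZMod.val_natCast, Nat.mod_eq_of_lt hlt, Nat.mod_eq_of_lt hlt'] at h4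
        exact Nat.eq_of_mul_eq_mul_left (by omega) h4
      · intro a ha
        rw [Finset.mem_filter] at ha
        obtain ⟨t, ht⟩ := ha.2
        refine ⟨t, ?_, ?_⟩
        · rw [Finset.mem_range]
          have := ZMod.val_lt a
          have h5 : (r + 1 + 1) * t < (r + 1 + 1) * r := by
            rw [← ht]
            exact lt_of_lt_of_eq this hdr
          exact Nat.lt_of_mul_lt_mul_left h5
        · rw [← ht, ZMod.natCast_zmod_val]
    rw [h2]
    simp
  · have hr : 2 ≤ r := by
      by_contra hlt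
      have : r = 1 := by omega
      rw [this] at hb
      exact hb (one_dvd _)
    have hcval : (((r + 1 + 1 : ℕ)) : ZMod d).val = r + 1 + 1 := by
      rw [ZMod.val_natCast]
      apply Nat.mod_eq_of_lt
      rw [hdr]
      nlinarith
    refine sum_ch_zero b ((r + 1 + 1 : ℕ) : ZMod d) _ ?_ ?_
    · intro a
      rw [Finset.mem_filter, Finset.mem_filter]
      have := dvd_val_add hqd a ((r + 1 + 1 : ℕ) : ZMod d) (by rw [hcval])
      constructor
      · rintro ⟨-, h⟩
        exact ⟨Finset.mem_univ _, this.1 h⟩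
      · rintro ⟨-, h⟩
        exact ⟨Finset.mem_univ _, this.2 h⟩
    · rw [Ne, ch_eq_one_iff, hcval]
      intro h
      apply hb
      have h1 : r * (r + 1 + 1) ∣ b.val * (r + 1 + 1) := by
        refine (dvd_of_eq ?_).trans h
        rw [mul_comm r]
        exact hdr.symm
      exact Nat.dvd_of_mul_dvd_mul_right (by omega) h1

/-- character sum over a relative difference set -/
lemma sum_ch_rds (hd : d + 1 = q ^ 2) (hq2 : 2 ≤ q) {D : Finset (ZMod d)} (hD : D.card = q)
    (h1 : ∀ a : ZMod d, ¬ (q + 1) ∣ a.val → ∃ i0, ∀ i, (i ∈ D ∧ i - a ∈ D) ↔ i = i0)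
    (h2 : ∀ a : ZMod d, a ≠ 0 → (q + 1) ∣ a.val → ∀ i, ¬ (i ∈ D ∧ i - a ∈ D))
    {b : ZMod d} (hb : b ≠ 0) :
    ‖∑ i ∈ D, ch d b i‖ ^ 2 = if (q - 1) ∣ b.val then 1 else (q : ℝ) := by
  classical
  -- correlation function
  have hr : ∀ a : ZMod d, ((D.filter fun i => i - a ∈ D).card : ℂ) =
      (if a = 0 then (q : ℂ) else 0) + 1 - (if (q + 1) ∣ a.val then 1 else 0) := by
    intro a
    by_cases ha : a = 0
    · subst ha
      have : (D.filter fun i => i - 0 ∈ D) = D := by
        ext i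
        simp
      rw [this, hD]
      simp
    · rw [if_neg ha]
      by_cases hqa : (q + 1) ∣ a.val
      · rw [if_pos hqa]
        have : (D.filter fun i => i - a ∈ D) = ∅ := by
          rw [Finset.filter_eq_empty_iff]
          intro i hi hia
          exact h2 a ha hqa i ⟨hi, hia⟩
        rw [this]
        simp
      · rw [if_neg hqa]
        obtain ⟨i0, hi0⟩ := h1 a hqa
        have : (D.filter fun i => i - a ∈ D) = {i0} := by
          ext i
          rw [Finset.mem_filter, Finset.mem_singleton]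
          exact hi0 i
        rw [this]
        simp
  have key : ((∑ i ∈ D, ch d b i) * star (∑ i ∈ D, ch d b i) : ℂ) =
      ∑ a : ZMod d, ((D.filter fun i => i - a ∈ D).card : ℂ) * ch d b a := by
    rw [star_sum, Finset.sum_mul_sum]
    have e1 : ∀ i ∈ D, ∑ j ∈ D, ch d b i * star (ch d b j) =
        ∑ a : ZMod d, if i - a ∈ D then ch d b a else 0 := by
      intro i _
      have e2 : ∑ a : ZMod d, (if i - a ∈ D then ch d b a else 0) =
          ∑ j : ZMod d, (if j ∈ D then ch d b (i - j) else 0) := by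
        refine Finset.sum_bij (fun a _ => i - a) (fun a _ => Finset.mem_univ _)
          (fun a _ a' _ h => sub_right_injective h) (fun j _ => ⟨i - j, Finset.mem_univ _, by ring⟩) ?_
        intro a _
        rw [sub_sub_cancel]
      rw [e2, ← Finset.sum_filter]
      have e3 : (Finset.univ.filter fun j => j ∈ D) = D := by
        ext j
        simp
      rw [e3]
      exact Finset.sum_congr rfl fun j _ => (ch_sub b i j).symm
    rw [Finset.sum_congr rfl e1, Finset.sum_comm]
    refine Finset.sum_congr rfl fun a _ => ?_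
    rw [← Finset.sum_filter, Finset.sum_const, nsmul_eq_mul]
  have hval : ((∑ i ∈ D, ch d b i) * star (∑ i ∈ D, ch d b i) : ℂ) =
      if (q - 1) ∣ b.val then 1 else (q : ℂ) := by
    rw [key]
    have e1 : ∀ a : ZMod d, ((D.filter fun i => i - a ∈ D).card : ℂ) * ch d b a =
        ((if a = 0 then (q : ℂ) * ch d b a else 0) + ch d b a) -
          (if (q + 1) ∣ a.val then ch d b a else 0) := by
      intro a
      rw [hr a]
      split_ifs <;> ring
    rw [Finset.sum_congr rfl fun a _ => e1 a, Finset.sum_sub_distrib, Finset.sum_add_distrib,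
      sum_ch_univ hb, Finset.sum_ite_eq' Finset.univ (0 : ZMod d) fun a => (q : ℂ) * ch d b a,
      if_pos (Finset.mem_univ _), ch_zero, ← Finset.sum_filter, sum_ch_mult hd hq2]
    split_ifs <;> ring
  have h3 : ((‖∑ i ∈ D, ch d b i‖ ^ 2 : ℝ) : ℂ) =
      (∑ i ∈ D, ch d b i) * star (∑ i ∈ D, ch d b i) := by
    rw [RCLike.star_def, Complex.mul_conj, Complex.normSq_eq_norm_sq]
  rw [hval] at h3
  split_ifs at h3 ⊢ with h
  · exact_mod_cast h3
  · exact_mod_cast h3

end row

/-- For a prime power `q` and `d = q ^ 2 - 1` there is a set `D` of `q` residues mod `d` such that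
every vector `ψ` with `|ψ_i|² = 1 / q` on `D` and `ψ_i = 0` off `D` is a unit vector whose
overlaps are: `1 / (d + 1)` exactly for every `(a, b)` with `q + 1 ∤ a`, and `0` for `a ≠ 0`,
`q + 1 ∣ a`; for `a = 0`, `b ≠ 0` they are `1 / (d + 1)` if `q - 1 ∣ b` and `1 / q` if not. -/
theorem result (q d : ℕ) [NeZero d] (hq : IsPrimePow q) (hd : d + 1 = q ^ 2) :
    ∃ D : Finset (ZMod d), D.card = q ∧ ∀ ψ : ZMod d → ℂ,
      (∀ i ∈ D, ‖ψ i‖ ^ 2 = 1 / (q : ℝ)) → (∀ i, i ∉ D → ψ i = 0) →
      ∑ i, ‖ψ i‖ ^ 2 = 1 ∧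
      (∀ a b : ZMod d, ¬ (q + 1) ∣ a.val → ‖overlap ψ a b‖ ^ 2 = 1 / ((d : ℝ) + 1)) ∧
      (∀ a b : ZMod d, a ≠ 0 → (q + 1) ∣ a.val → overlap ψ a b = 0) ∧
      (∀ b : ZMod d, b ≠ 0 → ‖overlap ψ 0 b‖ ^ 2 =
        if (q - 1) ∣ b.val then 1 / ((d : ℝ) + 1) else 1 / (q : ℝ)) := by
  classical
  obtain ⟨p, k, hp, hk, rfl⟩ := (isPrimePow_nat_iff q).1 hq
  have := Fact.mk hp
  have hq2 : 2 ≤ p ^ k := by
    calc 2 ≤ p := hp.two_le
      _ = p ^ 1 := (pow_one p).symm
      _ ≤ p ^ k := Nat.pow_le_pow_right hp.pos hk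
  let F := GaloisField p (k * 2)
  have : Fintype F := Fintype.ofFinite F
  have hF : Fintype.card F = (p ^ k) ^ 2 := by
    rw [← pow_mul, ← Nat.card_eq_fintype_card]
    exact GaloisField.card p (k * 2) (by omega)
  obtain ⟨θ, hgen⟩ := IsCyclic.exists_generator (α := Fˣ)
  have hθ : orderOf θ = d := by
    rw [orderOf_eq_card_of_forall_mem_zpowers hgen, Nat.card_eq_fintype_card, Fintype.card_units,
      hF]
    omega
  have hqpos : (0 : ℝ) < ((p ^ k : ℕ) : ℝ) := by
    have : 0 < p ^ k := by omega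
    exact_mod_cast this
  have hdq : (d : ℝ) + 1 = ((p ^ k : ℕ) : ℝ) ^ 2 := by exact_mod_cast hd
  refine ⟨bose (p ^ k) d (θ : F), card_bose hp rfl hF hq2 hθ hgen, ?_⟩
  intro ψ h1 h0
  refine ⟨?_, ?_, ?_, ?_⟩
  · rw [← Finset.sum_subset (Finset.subset_univ (bose (p ^ k) d (θ : F)))]
    · rw [Finset.sum_congr rfl h1, Finset.sum_const, card_bose hp rfl hF hq2 hθ hgen,
        nsmul_eq_mul]
      field_simp
    · intro i _ hi
      rw [h0 i hi]
      simp
  · intro a b ha
    obtain ⟨i0, hi0⟩ := bose_inter hp rfl hF hd hq2 hθ hgen ha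
    rw [overlap_eq, Finset.sum_eq_single i0]
    · obtain ⟨h2, h3⟩ := (hi0 i0).2 rfl
      rw [norm_mul, norm_mul, norm_root, one_mul, norm_star, mul_pow, h1 _ h2, h1 _ h3, hdq]
      field_simp
    · intro i _ hi
      by_cases hiD : i ∈ bose (p ^ k) d (θ : F)
      · have : i - a ∉ bose (p ^ k) d (θ : F) := fun h => hi ((hi0 i).1 ⟨hiD, h⟩)
        rw [h0 _ this]
        simp
      · rw [h0 _ hiD]
        simp
    · intro h
      exact absurd (Finset.mem_univ _) h
  · intro a b ha0 ha
    rw [overlap_eq]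
    apply Finset.sum_eq_zero
    intro i _
    by_cases hiD : i ∈ bose (p ^ k) d (θ : F)
    · have : i - a ∉ bose (p ^ k) d (θ : F) := fun h =>
        bose_disj (F := F) hd hq2 hθ ha0 ha i ⟨hiD, h⟩
      rw [h0 _ this]
      simp
    · rw [h0 _ hiD]
      simp
  · intro b hb
    have e1 : overlap ψ 0 b = (1 / ((p ^ k : ℕ) : ℂ)) * ∑ i ∈ bose (p ^ k) d (θ : F), ch d b i := by
      rw [overlap_eq, Finset.mul_sum]
      have e2 : ∑ i : ZMod d, star (ψ i) *
          ((Complex.exp (2 * Real.pi * Complex.I / d) ^ b.val) ^ (i - 0).val * ψ (i - 0)) =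
          ∑ i ∈ bose (p ^ k) d (θ : F), star (ψ i) *
          ((Complex.exp (2 * Real.pi * Complex.I / d) ^ b.val) ^ (i - 0).val * ψ (i - 0)) := by
        symm
        apply Finset.sum_subset (Finset.subset_univ _)
        intro i _ hi
        rw [h0 i hi]
        simp
      rw [e2]
      refine Finset.sum_congr rfl fun i hi => ?_
      rw [sub_zero]
      have e3 : star (ψ i) * ψ i = (1 / ((p ^ k : ℕ) : ℂ)) := by
        rw [RCLike.star_def, mul_comm, Complex.mul_conj, Complex.normSq_eq_norm_sq, h1 i hi]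
        push_cast
        rfl
      unfold ch
      rw [← e3]
      ring
    rw [e1, norm_mul, mul_pow, sum_ch_rds hd hq2 (card_bose hp rfl hF hq2 hθ hgen)
      (fun a ha => bose_inter hp rfl hF hd hq2 hθ hgen ha)
      (fun a ha0 ha => bose_disj (F := F) hd hq2 hθ ha0 ha) hb]
    have e4 : ‖(1 / ((p ^ k : ℕ) : ℂ))‖ = 1 / ((p ^ k : ℕ) : ℝ) := by
      rw [norm_div, norm_one, Complex.norm_natCast]
    rw [e4, hdq]
    split_ifs
    · field_simp
    · field_simp

end Pool.Agent.Results.MP_1c78a5_mp.ExactOverlaps
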