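import Pool.Agent.Lib_MP_1c78a5_odd.Defs
import Pool.Agent.Lib_MP_1c78a5_odd.Par58
import Pool.Agent.Lib_MP_1c78a5_odd.WH58

/-!
# Symmetries of even order of Weyl-Heisenberg SICs exist only if `d + 1` is a perfect square

`shiftOp`, `clockOp`, `displacement` and `IsFiducial` are defined in
`Pool.Agent.Lib_MP_1c78a5_odd.Defs`.

Sketch of the proof: let `U` be a unitary which permutes the lines of the `d ^ 2` vectors
`v x = D_x ψ` and fixes one of them, scaled so that `U ^ 2 = 1`. The numbers `t x = ⟨v x| U |v x⟩` are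
real, equal to `± 1` if the line of `v x` is fixed and to `± 1 / √(d + 1)` if not. Since the `v x` form
a 2-design, `∑ t x = d T` and `∑ (t x) ^ 2 = d (T ^ 2 + d) / (d + 1)`, where `T = tr U` is an integer.
So there are `T ^ 2 ≥ 1` fixed lines, and `d T = K + N / √(d + 1)` with integers `N` and `K`,
`|K| ≤ T ^ 2 < d |T|`. Hence `√(d + 1)` is rational. If `d` is odd, then `T` is odd, so that a line is
fixed in any case.
-/

set_option autoImplicit false

namespace Pool.Agent.Results.MP_1c78a5_mp.OddStabilizer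

open Matrix Pool.Agent.Lib_MP_1c78a5_odd

/-- The matrix `U` maps the vector `D_x ψ` to a multiple of `D_{π x} ψ`, for all `x`. -/
def Induces {d : ℕ} [NeZero d] (U : Matrix (ZMod d) (ZMod d) ℂ) (ψ : ZMod d → ℂ)
    (π : ZMod d × ZMod d → ZMod d × ZMod d) : Prop :=
  ∀ x, ∃ c : ℂ, U *ᵥ (displacement d x.1 x.2 *ᵥ ψ) = c • (displacement d (π x).1 (π x).2 *ᵥ ψ)

/-- Let `ψ` be a Weyl-Heisenberg SIC fiducial in dimension `d`.
(1) If a unitary `U` maps each of the `d ^ 2` lines of the SIC to one of them, `U ^ 2` is scalar and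
`U` is not scalar, and if `U` fixes at least one of the lines or `d` is odd, then `d + 1` is a perfect
square.
(2) If `d + 1` is not a perfect square, then every group of permutations of the lines of the SIC which
are induced by unitaries has odd order, if `d` is odd or each of the permutations fixes a line.
(3) If a unitary `U` normalizes the Weyl-Heisenberg group (up to scalars), `ψ` is an eigenvector of
`U`, `U ^ 2` is scalar and `U` is not scalar, then `d + 1` is a perfect square.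
(4) If `ψ (u i) = e ψ i` for all `i`, where `e` is a constant, `u ^ 2 = 1` and `u ≠ 1`, then `d + 1` is a
perfect square. -/
theorem result (d : ℕ) [NeZero d] (ψ : ZMod d → ℂ) (hψ : IsFiducial ψ) :
    (∀ (U : Matrix (ZMod d) (ZMod d) ℂ) (π : ZMod d × ZMod d → ZMod d × ZMod d), Uᴴ * U = 1 →
      Induces U ψ π → (∃ x, π x = x) ∨ Odd d → (∃ z : ℂ, U * U = z • 1) →
      (¬ ∃ z : ℂ, U = z • 1) → IsSquare (d + 1)) ∧
    (¬ IsSquare (d + 1) → ∀ G : Subgroup (Equiv.Perm (ZMod d × ZMod d)),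
      (∀ π ∈ G, ((∃ x, π x = x) ∨ Odd d) ∧
        ∃ U : Matrix (ZMod d) (ZMod d) ℂ, Uᴴ * U = 1 ∧ Induces U ψ π) → Odd (Nat.card G)) ∧
    (∀ U : Matrix (ZMod d) (ZMod d) ℂ, Uᴴ * U = 1 →
      (∀ a b : ZMod d, ∃ (a' b' : ZMod d) (c : ℂ),
        U * displacement d a b = c • (displacement d a' b' * U)) →
      (∃ e : ℂ, U *ᵥ ψ = e • ψ) → (∃ z : ℂ, U * U = z • 1) → (¬ ∃ z : ℂ, U = z • 1) →
      IsSquare (d + 1)) ∧
    (∀ u : ZMod d, u * u = 1 → u ≠ 1 → ∀ e : ℂ, (∀ i, ψ (u * i) = e * ψ i) →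
      IsSquare (d + 1)) := by
  have h := wh_sic hψ
  have h1 : ∀ (U : Matrix (ZMod d) (ZMod d) ℂ) (π : ZMod d × ZMod d → ZMod d × ZMod d),
      Uᴴ * U = 1 → Induces U ψ π → (∃ x, π x = x) ∨ Odd d → (∃ z : ℂ, U * U = z • 1) →
      (¬ ∃ z : ℂ, U = z • 1) → IsSquare (d + 1) := by
    intro U π hU hπ hfix hz hns
    have h2 := square_of_sym' h hU π hπ (by rw [ZMod.card]; exact hfix.symm) hz hns
    rwa [ZMod.card] at h2
  refine ⟨h1, ?_, ?_, ?_⟩
  · intro hnsq G hG
    apply odd_of_group58 h (by rwa [ZMod.card]) G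
    intro π hπ
    obtain ⟨h2, U, hU, h3⟩ := hG π hπ
    exact ⟨by rwa [ZMod.card], U, hU, h3⟩
  · rintro U hU hcl ⟨e, he⟩ hz hns
    choose a' b' c hc using hcl
    classical
    refine h1 U (fun x => if x = (0, 0) then (0, 0) else (a' x.1 x.2, b' x.1 x.2)) hU ?_
      (Or.inl ⟨(0, 0), by simp⟩) hz hns
    intro x
    by_cases hx : x = (0, 0)
    · subst hx
      refine ⟨e, ?_⟩
      simp only [if_true, disp_zero]
      exact he
    · refine ⟨c x.1 x.2 * e, ?_⟩
      simp only [if_neg hx]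
      rw [Matrix.mulVec_mulVec, hc, smul_mulVec, ← Matrix.mulVec_mulVec, he, Matrix.mulVec_smul,
        smul_smul]
  · intro u hu hu1 e he
    obtain ⟨U, hU, hUU, hd, hns⟩ := mult_sym d u hu ψ e he
    refine h1 U (fun x => (u * x.1, u * x.2)) hU (fun x => ⟨e, hd x.1 x.2⟩)
      (Or.inl ⟨(0, 0), by simp⟩) ⟨1, by rw [hUU, one_smul]⟩ (hns hu1)

end Pool.Agent.Results.MP_1c78a5_mp.OddStabilizer
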